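import Mathlib

set_option autoImplicit false

/-!
# MP_b6d2fe_co: maximal elements of the edge-connectivity system, finite connectivity

`D` is an acyclic rooted digraph without backward-infinite paths, `B` a maximal element of
`𝒢(D)`. Finite subsets of `δ(v) ∩ B` are covered by edge-disjoint paths inside `B`; the same holds
for the whole of `δ(v) ∩ B` if `v` or all its predecessors have finite connectivity; so `B` is a
flame if no vertex of infinite connectivity is reachable from another one. Without any restriction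
on the connectivity: `δ(v) ∩ B` is covered by edge-disjoint paths which use only edges of `B` at
any prescribed finite set of vertices.

Method: systems of edge-disjoint paths are injective predecessor-or-stay maps on the edges
(there are no backward-infinite paths); exchange along alternating walks, finite or infinite;
induction along the (Dershowitz-Manna / hydra) order of multisets of vertices; an ultrafilter limit.
-/

namespace Pool.Agent.Results.MP_b6d2fe_co.FiniteConnectivity

open Relation Set

/-- A rooted digraph: edges `E` with tails and heads in `V` (parallel edges are allowed), no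
loops, and no edge enters the root. -/
structure RDigraph (V E : Type*) where
  /-- the tail (initial vertex) of an edge -/
  tail : E → V
  /-- the head (terminal vertex) of an edge -/
  head : E → V
  /-- the root -/
  root : V
  no_loop : ∀ e, tail e ≠ head e
  root_in : ∀ e, head e ≠ root

variable {V E : Type*}

/-- `D.Walk v l`: `l` is the list of edges, last edge first, of a directed walk from the root to
`v`. -/
inductive RDigraph.Walk (D : RDigraph V E) : V → List E → Prop
  | nil : RDigraph.Walk D D.root []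
  | cons (e : E) (l : List E) (h : RDigraph.Walk D (D.tail e) l) :
      RDigraph.Walk D (D.head e) (e :: l)

variable (D : RDigraph V E)

namespace RDigraph

/-- `S` is the edge set of a directed path (no vertex is repeated) from the root to `v` whose edges
lie in `F`. -/
def IsPath (F : Set E) (v : V) (S : Set E) : Prop :=
  ∃ l : List E, D.Walk v l ∧ (l.map D.head ++ [D.root]).Nodup ∧ S = {e | e ∈ l} ∧ S ⊆ F

/-- The family `𝒢_{D(F)}(v)`: sets of edges of `F` entering `v` that are covered by pairwise
edge-disjoint paths from the root to `v` in `D(F) = (V, F)`. -/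
def Gv (F : Set E) (v : V) : Set (Set E) :=
  {I | I ⊆ {e | e ∈ F ∧ D.head e = v} ∧ ∃ P : Set (Set E), P.PairwiseDisjoint id ∧
    (∀ S ∈ P, D.IsPath F v S) ∧ I ⊆ ⋃₀ P}

/-- The system `𝒢(D(F))`. -/
def GG (F : Set E) : Set (Set E) :=
  {B | ∃ I : V → Set E, (∀ v, v ≠ D.root → I v ∈ D.Gv F v) ∧ B = ⋃ v ∈ {v | v ≠ D.root}, I v}

/-- `F` is a flame: `F ∈ 𝒢(D(F))`. -/
def Flame (F : Set E) : Prop := F ∈ D.GG F

/-- There is an edge from `a` to `b`. -/
def Adj (a b : V) : Prop := ∃ e, D.tail e = a ∧ D.head e = b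

/-- There is no directed cycle. -/
def Acyclic : Prop := ∀ v, ¬ TransGen D.Adj v v

/-- There is no backward-infinite path. -/
def NoBackInf : Prop :=
  ¬ ∃ f : ℕ → E, (∀ n, D.head (f (n + 1)) = D.tail (f n)) ∧
    Function.Injective (fun n => D.tail (f n))

/-- There are infinitely many pairwise edge-disjoint paths from the root to `v`. -/
def InfConn (v : V) : Prop :=
  ∃ P : Set (Set E), P.Infinite ∧ P.PairwiseDisjoint id ∧ ∀ S ∈ P, D.IsPath univ v S

end RDigraph

/-! ### well-foundedness -/

lemma adj_wf (hac : D.Acyclic) (hb : D.NoBackInf) : WellFounded D.Adj := by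
  rw [wellFounded_iff_isEmpty_descending_chain]
  refine ⟨fun ⟨f, hf⟩ => ?_⟩
  choose e h1 h2 using hf
  have key : ∀ m n, m < n → TransGen D.Adj (f n) (f m) := by
    intro m n hmn
    induction n with
    | zero => omega
    | succ n ih =>
      have h3 : D.Adj (f (n + 1)) (f n) := ⟨e n, h1 n, h2 n⟩
      rcases Nat.lt_succ_iff_lt_or_eq.1 hmn with h | h
      · exact TransGen.head h3 (ih h)
      · subst h
        exact TransGen.single h3
  refine hb ⟨e, fun n => ?_, fun m n hmn => ?_⟩
  · rw [h2, h1]
  · simp only [h1] at hmn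
    rcases lt_trichotomy m n with h | h | h
    · have := key (m + 1) (n + 1) (by omega)
      rw [← hmn] at this
      exact (hac _ this).elim
    · exact h
    · have := key (n + 1) (m + 1) (by omega)
      rw [hmn] at this
      exact (hac _ this).elim

/-! ### injective predecessor maps -/

/-- `μ` maps every edge of `F` not starting at the root injectively to itself or to a
predecessor in `F`, and avoids `J`. -/
structure Mt (F J : Set E) (μ : E → E) : Prop where
  maps : ∀ e ∈ F, D.tail e ≠ D.root → μ e ∈ F ∧ (μ e = e ∨ D.head (μ e) = D.tail e)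
  inj : ∀ e ∈ F, ∀ e' ∈ F, D.tail e ≠ D.root → D.tail e' ≠ D.root → μ e = μ e' → e = e'
  avoid : ∀ e ∈ F, D.tail e ≠ D.root → μ e ∉ J

/-- linkable sets of edges -/
def Lk (F J : Set E) : Prop := J ⊆ F ∧ ∃ μ, Mt D F J μ

variable {D}

lemma Lk.mono_set {F J J' : Set E} (h : Lk D F J) (h' : J' ⊆ J) : Lk D F J' := by
  obtain ⟨h1, μ, hμ⟩ := h
  exact ⟨h'.trans h1, μ, hμ.maps, hμ.inj, fun e he ht hh => hμ.avoid e he ht (h' hh)⟩

open Classical in
lemma Lk.mono_edges {F F' J : Set E} (h : Lk D F J) (h' : F ⊆ F') : Lk D F' J := by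
  obtain ⟨h1, μ, hμ⟩ := h
  refine ⟨h1.trans h', fun e => if e ∈ F then μ e else e, ?_, ?_, ?_⟩
  · intro e he ht
    by_cases hF : e ∈ F
    · simp only [hF, if_true]
      exact ⟨h' (hμ.maps e hF ht).1, (hμ.maps e hF ht).2⟩
    · simp only [hF, if_false]
      exact ⟨he, Or.inl trivial⟩
  · intro e he e' he' ht ht' heq
    by_cases hF : e ∈ F <;> by_cases hF' : e' ∈ F
    · simp only [hF, hF', if_true] at heq
      exact hμ.inj e hF e' hF' ht ht' heq
    · simp only [hF, hF', if_true, if_false] at heq
      exact (hF' (heq ▸ (hμ.maps e hF ht).1)).elim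
    · simp only [hF, hF', if_true, if_false] at heq
      exact (hF (heq ▸ (hμ.maps e' hF' ht').1)).elim
    · simp only [hF, hF', if_false] at heq
      exact heq
  · intro e he ht hJ
    by_cases hF : e ∈ F
    · simp only [hF, if_true] at hJ
      exact hμ.avoid e hF ht hJ
    · simp only [hF, if_false] at hJ
      exact hF (h1 hJ)

/-! ### the exchange lemma -/

open Classical in
/-- Exchange: `I`, `J` are linkable and no `k ∈ K ⊆ J` can be added to `I`. Then the elements of
`K` can be exchanged injectively for elements of `I` outside `J`. -/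
lemma exchange {F I J K : Set E} (hI : Lk D F I) (hJ : Lk D F J) (hK : K ⊆ J)
    (hno : ∀ k ∈ K, ¬ Lk D F (insert k I)) :
    ∃ b : E → E, (∀ k ∈ K, b k ∈ I ∧ b k ∉ J) ∧ InjOn b K ∧ Lk D F ((J \ K) ∪ b '' K) := by
  obtain ⟨hIF, α, hα⟩ := hI
  obtain ⟨hJF, β, hβ⟩ := hJ
  let Step : E → E → Prop := fun y y' => ∃ l ∈ F, D.tail l ≠ D.root ∧ α l = y ∧ β l = y'
  have hleft : ∀ a a' y, Step a y → Step a' y → a = a' := by
    rintro a a' y ⟨l, hl, ht, rfl, h2⟩ ⟨l', hl', ht', rfl, h2'⟩
    have := hβ.inj l hl l' hl' ht ht' (h2.trans h2'.symm)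
    rw [this]
  have hright : ∀ a y y', Step a y → Step a y' → y = y' := by
    rintro a y y' ⟨l, hl, ht, h1, rfl⟩ ⟨l', hl', ht', h1', rfl⟩
    have := hα.inj l hl l' hl' ht ht' (h1.trans h1'.symm)
    rw [this]
  have hnotJ : ∀ a y, Step a y → y ∉ J := by
    rintro a y ⟨l, hl, ht, h1, rfl⟩
    exact hβ.avoid l hl ht
  have hreachJ : ∀ a y, ReflTransGen Step a y → y ∈ J → a = y := by
    intro a y h hy
    rcases ReflTransGen.cases_tail h with h | ⟨c, _, hc⟩
    · exact h.symm
    · exact (hnotJ _ _ hc hy).elim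
  have hinF : ∀ a y, a ∈ F → ReflTransGen Step a y → y ∈ F := by
    intro a y ha h
    rcases ReflTransGen.cases_tail h with h | ⟨c, _, l, hl, ht, h1, h2⟩
    · rw [h]; exact ha
    · rw [← h2]; exact (hβ.maps l hl ht).1
  -- every chain from `K` meets `I`
  have hmeet : ∀ k ∈ K, ∃ y ∈ I, ReflTransGen Step k y := by
    intro k hk
    by_contra hcon
    push Not at hcon
    refine hno k hk ⟨insert_subset (hJF (hK hk)) hIF,
      fun l => if ReflTransGen Step k (α l) then β l else α l, ?_, ?_, ?_⟩
    · intro e he ht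
      by_cases h : ReflTransGen Step k (α e)
      · simp only [h, if_true]
        exact hβ.maps e he ht
      · simp only [h, if_false]
        exact hα.maps e he ht
    · intro e he e' he' ht ht' heq
      by_cases h : ReflTransGen Step k (α e) <;> by_cases h' : ReflTransGen Step k (α e')
      · simp only [h, h', if_true] at heq
        exact hβ.inj e he e' he' ht ht' heq
      · simp only [h, h', if_true, if_false] at heq
        exact (h' (heq ▸ h.tail ⟨e, he, ht, rfl, rfl⟩)).elim
      · simp only [h, h', if_true, if_false] at heq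
        exact (h (heq ▸ h'.tail ⟨e', he', ht', rfl, rfl⟩)).elim
      · simp only [h, h', if_false] at heq
        exact hα.inj e he e' he' ht ht' heq
    · intro e he ht hmem
      by_cases h : ReflTransGen Step k (α e)
      · simp only [h, if_true] at hmem
        rcases hmem with hmem | hmem
        · exact hβ.avoid e he ht (hmem ▸ hK hk)
        · exact hcon _ hmem (h.tail ⟨e, he, ht, rfl, rfl⟩)
      · simp only [h, if_false] at hmem
        rcases hmem with hmem | hmem
        · exact h (hmem ▸ ReflTransGen.refl)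
        · exact hα.avoid e he ht hmem
  choose! b hbI hb using hmeet
  have hkI : ∀ k ∈ K, k ∉ I := by
    intro k hk hkI
    apply hno k hk
    rw [insert_eq_of_mem hkI]
    exact ⟨hIF, α, hα⟩
  have hbJ : ∀ k ∈ K, b k ∉ J := by
    intro k hk hkJ
    have := hreachJ k (b k) (hb k hk) hkJ
    exact hkI k hk (this ▸ hbI k hk)
  refine ⟨b, fun k hk => ⟨hbI k hk, hbJ k hk⟩, ?_, ?_, ?_⟩
  · -- injectivity
    intro k hk k' hk' heq
    have h1 := hb k hk
    have h2 := hb k' hk'
    rw [← heq] at h2
    have hswap : Relator.RightUnique (Function.swap Step) := by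
      intro a y y' h h'
      exact hleft _ _ _ h h'
    have h1' := reflTransGen_swap.2 h1
    have h2' := reflTransGen_swap.2 h2
    rcases ReflTransGen.total_of_right_unique hswap h1' h2' with h | h
    · have := reflTransGen_swap.1 h
      exact (hreachJ _ _ this (hK hk)).symm
    · have := reflTransGen_swap.1 h
      exact hreachJ _ _ this (hK hk')
  · rintro x (hx | ⟨k, hk, rfl⟩)
    · exact hJF hx.1
    · exact hIF (hbI k hk)
  · let C : Set E := {y | ∃ k ∈ K, ReflTransGen Step k y}
    have hCstep : ∀ y y', y ∈ C → Step y y' → y' ∈ C := by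
      rintro y y' ⟨k, hk, h⟩ h'
      exact ⟨k, hk, h.tail h'⟩
    have hCback : ∀ y y', y' ∈ C → Step y y' → y ∈ C := by
      rintro y y' ⟨k, hk, h⟩ h'
      rcases ReflTransGen.cases_tail h with h | ⟨c, hc, hc'⟩
      · exact (hnotJ _ _ h' (h ▸ hK hk)).elim
      · exact ⟨k, hk, hleft _ _ _ h' hc' ▸ hc⟩
    refine ⟨fun l => if α l ∈ C then α l else β l, ?_, ?_, ?_⟩
    · intro e he ht
      by_cases h : α e ∈ C
      · simp only [h, if_true]
        exact hα.maps e he ht
      · simp only [h, if_false]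
        exact hβ.maps e he ht
    · intro e he e' he' ht ht' heq
      by_cases h : α e ∈ C <;> by_cases h' : α e' ∈ C
      · simp only [h, h', if_true] at heq
        exact hα.inj e he e' he' ht ht' heq
      · simp only [h, h', if_true, if_false] at heq
        exact (h' (hCback (α e') (β e') (heq ▸ h) ⟨e', he', ht', rfl, rfl⟩)).elim
      · simp only [h, h', if_true, if_false] at heq
        exact (h (hCback (α e) (β e) (heq ▸ h') ⟨e, he, ht, rfl, rfl⟩)).elim
      · simp only [h, h', if_false] at heq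
        exact hβ.inj e he e' he' ht ht' heq
    · intro e he ht hmem
      by_cases h : α e ∈ C
      · simp only [h, if_true] at hmem
        rcases hmem with hmem | ⟨k, hk, hmem⟩
        · obtain ⟨k, hk, hk'⟩ := h
          have := hreachJ _ _ hk' hmem.1
          exact hmem.2 (this ▸ hk)
        · exact hα.avoid e he ht (hmem ▸ hbI k hk)
      · simp only [h, if_false] at hmem
        rcases hmem with hmem | ⟨k, hk, hmem⟩
        · exact hβ.avoid e he ht hmem.1
        · apply h
          refine hCback (α e) (β e) ?_ ⟨e, he, ht, rfl, rfl⟩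
          rw [← hmem]
          exact ⟨k, hk, hb k hk⟩

/-! ### restricting to one vertex -/

lemma rtg_root {x : V} (h : ReflTransGen D.Adj x D.root) : x = D.root := by
  rcases ReflTransGen.cases_tail h with h | ⟨c, _, e, _, he⟩
  · exact h.symm
  · exact (D.root_in e he).elim

/-- removing all edges above `x` -/
lemma Lk.down {F J : Set E} (h : Lk D F J) (x : V)
    (hJ : ∀ j ∈ J, ¬ ReflTransGen D.Adj x (D.tail j)) :
    Lk D (F \ {e | ReflTransGen D.Adj x (D.tail e)}) J := by
  obtain ⟨h1, μ, hμ⟩ := h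
  refine ⟨fun j hj => ⟨h1 hj, hJ j hj⟩, μ, ?_, ?_, ?_⟩
  · intro e he ht
    obtain ⟨h2, h3⟩ := hμ.maps e he.1 ht
    refine ⟨⟨h2, ?_⟩, h3⟩
    rcases h3 with h3 | h3
    · rw [h3]; exact he.2
    · intro hh
      exact he.2 (ReflTransGen.tail hh ⟨μ e, rfl, h3⟩)
  · intro e he e' he' ht ht' h
    exact hμ.inj e he.1 e' he'.1 ht ht' h
  · intro e he ht
    exact hμ.avoid e he.1 ht

/-- The single-vertex theorem: if `Bx` is a maximal linkable set of edges entering `x`, then the
other edges entering `x` can be deleted. -/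
lemma single (hac : D.Acyclic) {F J : Set E} {x : V} (hx : x ≠ D.root) {Bx : Set E}
    (hB : Lk D F Bx) (hBx : ∀ e ∈ Bx, D.head e = x)
    (hmax : ∀ k ∈ F, D.head k = x → k ∉ Bx → ¬ Lk D F (insert k Bx))
    (hJ : Lk D F J) (hJN : ∀ j ∈ J, D.head j = x → j ∈ Bx) :
    Lk D (F \ {e | D.head e = x ∧ e ∉ Bx}) J := by
  classical
  obtain ⟨hJF, μ, hμ⟩ := hJ
  set U : Set E := {e | ReflTransGen D.Adj x (D.tail e)} with hU
  set N : Set E := {e | D.head e = x ∧ e ∉ Bx} with hN
  have hUroot : ∀ e ∈ U, D.tail e ≠ D.root := by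
    intro e he ht
    have h1 : ReflTransGen D.Adj x (D.tail e) := he
    rw [ht] at h1
    exact hx (rtg_root h1)
  have hUhead : ∀ e, D.head e = x → e ∉ U := by
    intro e he hh
    exact hac x (TransGen.tail' hh ⟨e, rfl, he⟩)
  have hUpred : ∀ e g, D.head g = D.tail e → g ∈ U → e ∈ U := by
    intro e g h hg
    exact ReflTransGen.tail hg ⟨g, rfl, h⟩
  have hUrefl : ∀ e, D.tail e = x → e ∈ U := by
    intro e he
    change ReflTransGen D.Adj x (D.tail e)
    rw [he]
  let J1 : Set E := (J \ U) ∪ {g | g ∉ U ∧ ∃ e ∈ F, e ∈ U ∧ μ e = g}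
  have hJ1 : Lk D (F \ U) J1 := by
    refine ⟨?_, μ, ?_, ?_, ?_⟩
    · rintro g (hg | ⟨hg, e, he, heU, rfl⟩)
      · exact ⟨hJF hg.1, hg.2⟩
      · exact ⟨(hμ.maps e he (hUroot e heU)).1, hg⟩
    · intro e he ht
      obtain ⟨h2, h3⟩ := hμ.maps e he.1 ht
      refine ⟨⟨h2, ?_⟩, h3⟩
      rcases h3 with h3 | h3
      · rw [h3]; exact he.2
      · exact fun hh => he.2 (hUpred e _ h3 hh)
    · intro e he e' he' ht ht' h
      exact hμ.inj e he.1 e' he'.1 ht ht' h
    · rintro e he ht (hg | ⟨hg, e', he', heU', h⟩)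
      · exact hμ.avoid e he.1 ht hg.1
      · have := hμ.inj e' he' e he.1 (hUroot e' heU') ht h
        exact he.2 (this ▸ heU')
  have hBU : Lk D (F \ U) Bx := hB.down x (fun j hj => hUhead j (hBx j hj))
  obtain ⟨b, hb, hbi, hbF, ν, hν⟩ := exchange hBU hJ1 (K := J1 ∩ N) inter_subset_left
    (fun k hk h => hmax k (hJ1.1 hk.1).1 hk.2.1 hk.2.2 (h.mono_edges sdiff_subset))
  have hbhead : ∀ k ∈ J1 ∩ N, D.head (b k) = x := fun k hk => hBx _ (hb k hk).1
  -- the edges of `U` whose predecessor is exchanged
  have hUN : ∀ e ∈ F, e ∈ U → μ e ∈ N → μ e ∈ J1 := by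
    intro e he heU hN'
    exact Or.inr ⟨hUhead _ hN'.1, e, he, heU, rfl⟩
  have hmem1 : ∀ e ∈ F, e ∈ U → μ e ∉ J1 ∩ N → μ e ∉ U →
      μ e ∈ (J1 \ (J1 ∩ N)) ∪ b '' (J1 ∩ N) := by
    intro e he heU h1 h2
    exact Or.inl ⟨Or.inr ⟨h2, e, he, heU, rfl⟩, h1⟩
  refine ⟨fun j hj => ⟨hJF hj, fun hh => hh.2 (hJN j hj hh.1)⟩,
    fun e => if e ∈ U then (if μ e ∈ J1 ∩ N then b (μ e) else μ e) else ν e, ?_, ?_, ?_⟩
  · intro e he ht
    by_cases heU : e ∈ U
    · obtain ⟨h2, h3⟩ := hμ.maps e he.1 ht
      by_cases hK : μ e ∈ J1 ∩ N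
      · simp only [heU, hK, if_true]
        have h4 : b (μ e) ∈ Bx := (hb _ hK).1
        refine ⟨⟨hB.1 h4, fun hh => hh.2 h4⟩, Or.inr ?_⟩
        rw [hbhead _ hK]
        rcases h3 with h3 | h3
        · have h5 : D.head (μ e) = x := hK.2.1
          rw [h3] at h5
          exact (hUhead e h5 heU).elim
        · rw [← h3]
          exact hK.2.1.symm
      · simp only [heU, hK, if_true, if_false]
        exact ⟨⟨h2, fun hh => hK ⟨hUN e he.1 heU hh, hh⟩⟩, h3⟩
    · simp only [heU, if_false]
      obtain ⟨h2, h3⟩ := hν.maps e ⟨he.1, heU⟩ ht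
      refine ⟨⟨h2.1, fun hh => ?_⟩, h3⟩
      rcases h3 with h3 | h3
      · rw [h3] at hh
        exact he.2 hh
      · exact heU (hUrefl e (h3.symm.trans hh.1))
  · intro e he e' he' ht ht' heq
    -- mixed case: `e` in `U`, `e'` not
    have mixed : ∀ e ∈ F \ N, ∀ e' ∈ F \ N, D.tail e ≠ D.root → D.tail e' ≠ D.root → e ∈ U →
        e' ∉ U → (if μ e ∈ J1 ∩ N then b (μ e) else μ e) = ν e' → False := by
      intro e he e' he' ht ht' h h' heq
      by_cases hK : μ e ∈ J1 ∩ N
      · simp only [hK, if_true] at heq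
        refine hν.avoid e' ⟨he'.1, h'⟩ ht' ?_
        rw [← heq]
        exact Or.inr ⟨_, hK, rfl⟩
      · simp only [hK, if_false] at heq
        by_cases hμU : μ e ∈ U
        · exact (hν.maps e' ⟨he'.1, h'⟩ ht').1.2 (heq ▸ hμU)
        · refine hν.avoid e' ⟨he'.1, h'⟩ ht' ?_
          rw [← heq]
          exact hmem1 e he.1 h hK hμU
    by_cases h : e ∈ U <;> by_cases h' : e' ∈ U
    · simp only [h, h', if_true] at heq
      by_cases hK : μ e ∈ J1 ∩ N <;> by_cases hK' : μ e' ∈ J1 ∩ N
      · simp only [hK, hK', if_true] at heq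
        exact hμ.inj e he.1 e' he'.1 ht ht' (hbi hK hK' heq)
      · simp only [hK, hK', if_true, if_false] at heq
        exfalso
        by_cases hμU : μ e' ∈ U
        · rw [← heq] at hμU
          exact hUhead _ (hbhead _ hK) hμU
        · apply (hb _ hK).2
          rw [heq]
          exact Or.inr ⟨hμU, e', he'.1, h', rfl⟩
      · simp only [hK, hK', if_true, if_false] at heq
        exfalso
        by_cases hμU : μ e ∈ U
        · rw [heq] at hμU
          exact hUhead _ (hbhead _ hK') hμU
        · apply (hb _ hK').2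
          rw [← heq]
          exact Or.inr ⟨hμU, e, he.1, h, rfl⟩
      · simp only [hK, hK', if_false] at heq
        exact hμ.inj e he.1 e' he'.1 ht ht' heq
    · simp only [h, h', if_true, if_false] at heq
      exact (mixed e he e' he' ht ht' h h' heq).elim
    · simp only [h, h', if_true, if_false] at heq
      exact (mixed e' he' e he ht' ht h' h heq.symm).elim
    · simp only [h, h', if_false] at heq
      exact hν.inj e ⟨he.1, h⟩ e' ⟨he'.1, h'⟩ ht ht' heq
  · intro e he ht hmem
    by_cases h : e ∈ U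
    · simp only [h, if_true] at hmem
      by_cases hK : μ e ∈ J1 ∩ N
      · simp only [hK, if_true] at hmem
        exact (hb _ hK).2 (Or.inl ⟨hmem, hUhead _ (hbhead _ hK)⟩)
      · simp only [hK, if_false] at hmem
        exact hμ.avoid e he.1 ht hmem
    · simp only [h, if_false] at hmem
      refine hν.avoid e ⟨he.1, h⟩ ht (Or.inl ⟨Or.inl ⟨hmem, (hν.maps e ⟨he.1, h⟩ ht).1.2⟩, ?_⟩)
      intro hh
      exact hh.2.2 (hJN _ hmem hh.2.1)

/-- The maximality data of `B` (in terms of linkable sets). -/
structure MaxData (D : RDigraph V E) (B : Set E) : Prop where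
  lk : ∀ v, v ≠ D.root → Lk D univ {e | e ∈ B ∧ D.head e = v}
  max : ∀ k, k ∉ B → ¬ Lk D univ (insert k {e | e ∈ B ∧ D.head e = D.head k})

/-- Restricting to `B` at finitely many vertices. -/
lemma finX (hac : D.Acyclic) {B : Set E} (hB : MaxData D B) (X : Finset V) :
    ∀ J : Set E, Lk D univ J → (∀ j ∈ J, D.head j ∈ X → j ∈ B) →
      Lk D {e | e ∈ B ∨ D.head e ∉ X} J := by
  classical
  induction X using Finset.induction_on with
  | empty =>
    intro J hJ _
    refine hJ.mono_edges fun e _ => Or.inr ?_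
    simp
  | insert x X hxX ih =>
    intro J hJ hJX
    have h1 := ih J hJ (fun j hj hX => hJX j hj (Finset.mem_insert_of_mem hX))
    by_cases hx : x = D.root
    · refine h1.mono_edges ?_
      rintro e (he | he)
      · exact Or.inl he
      · refine Or.inr ?_
        rw [Finset.mem_insert, not_or]
        exact ⟨hx ▸ D.root_in e, he⟩
    · have h2 := ih {e | e ∈ B ∧ D.head e = x} (hB.lk x hx) (fun j hj _ => hj.1)
      refine (single hac hx h2 (fun e he => he.2) ?_ h1 ?_).mono_edges ?_
      · intro k _ hk hkB h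
        have hkB' : k ∉ B := fun hh => hkB ⟨hh, hk⟩
        have := hB.max k hkB'
        rw [hk] at this
        exact this (h.mono_edges (subset_univ _))
      · intro j hj hjx
        exact ⟨hJX j hj (hjx ▸ Finset.mem_insert_self _ _), hjx⟩
      · rintro e ⟨he | he, he'⟩
        · exact Or.inl he
        · by_cases heB : e ∈ B
          · exact Or.inl heB
          · refine Or.inr ?_
            rw [Finset.mem_insert, not_or]
            refine ⟨fun hh => he' ⟨hh, fun h3 => heB h3.1⟩, he⟩


/-! ### finite sets -/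

lemma finJ (hac : D.Acyclic) (hwf : WellFounded D.Adj) {B : Set E} (hB : MaxData D B)
    (J : Finset E) : (J : Set E) ⊆ B → Lk D univ (J : Set E) → Lk D B (J : Set E) := by
  classical
  have hwf' : WellFounded (CutExpand (TransGen D.Adj)) := hwf.transGen.cutExpand
  have hwf2 : WellFounded (InvImage (CutExpand (TransGen D.Adj))
      (fun J : Finset E => J.val.map D.tail)) := InvImage.wf _ hwf'
  induction J using hwf2.induction with
  | _ J ih =>
  intro hJB hJ
  by_cases hroot : ∀ f ∈ J, D.tail f = D.root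
  · refine ⟨hJB, id, fun e he _ => ⟨he, Or.inl rfl⟩, fun e _ e' _ _ _ h => h, ?_⟩
    intro e he ht hh
    exact ht (hroot e hh)
  push Not at hroot
  -- an element with maximal tail
  have hne : (J.filter (fun f => D.tail f ≠ D.root)).Nonempty := by
    obtain ⟨f, hf, hf'⟩ := hroot
    exact ⟨f, Finset.mem_filter.2 ⟨hf, hf'⟩⟩
  have : IsWellFounded V (TransGen D.Adj) := ⟨hwf.transGen⟩
  obtain ⟨f, hf, hfmax⟩ := Finset.exists_max_image _
    (fun f => IsWellFounded.rank (TransGen D.Adj) (D.tail f)) hne
  obtain ⟨hfJ, hfr⟩ := Finset.mem_filter.1 hf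
  have hmax : ∀ j ∈ J, ¬ TransGen D.Adj (D.tail f) (D.tail j) := by
    intro j hj hh
    by_cases hjr : D.tail j = D.root
    · rw [hjr] at hh
      exact hfr (rtg_root hh.to_reflTransGen)
    · have h1 := hfmax j (Finset.mem_filter.2 ⟨hj, hjr⟩)
      exact absurd (IsWellFounded.rank_lt_of_rel hh) (not_lt.2 h1)
  obtain ⟨-, μ, hμ⟩ := finX hac hB {D.tail f} J hJ (fun j hj _ => hJB hj)
  have hfF : f ∈ {e | e ∈ B ∨ D.head e ∉ ({D.tail f} : Finset V)} := Or.inl (hJB hfJ)
  obtain ⟨hg1, hg2⟩ := hμ.maps f hfF hfr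
  have hgJ : μ f ∉ (J : Set E) := hμ.avoid f hfF hfr
  set g := μ f with hg
  have hgf : g ≠ f := fun hh => hgJ (hh ▸ hfJ)
  have hghead : D.head g = D.tail f := hg2.resolve_left hgf
  have hgB : g ∈ B := by
    rcases hg1 with h | h
    · exact h
    · exact (h (by rw [hghead]; exact Finset.mem_singleton_self _)).elim
  have hgadj : D.Adj (D.tail g) (D.tail f) := ⟨g, rfl, hghead⟩
  have hfadj : D.Adj (D.tail f) (D.head f) := ⟨f, rfl, rfl⟩
  have hgJ' : g ∉ J.erase f := fun hh => hgJ (Finset.mem_of_mem_erase hh)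
  -- the new set
  have hJ2 : ((insert g (J.erase f) : Finset E) : Set E) ⊆ B := by
    intro e he
    rcases Finset.mem_insert.1 (Finset.mem_coe.1 he) with rfl | he
    · exact hgB
    · exact hJB (Finset.mem_of_mem_erase he)
  have hLk2 : Lk D univ ((insert g (J.erase f) : Finset E) : Set E) := by
    have : Lk D {e | e ∈ B ∨ D.head e ∉ ({D.tail f} : Finset V)}
        ((insert g (J.erase f) : Finset E) : Set E) := by
      refine ⟨fun e he => Or.inl (hJ2 he), fun e => if e = f then f else μ e, ?_, ?_, ?_⟩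
      · intro e he ht
        by_cases h : e = f
        · simp only [h, if_true]
          exact ⟨hfF, Or.inl trivial⟩
        · simp only [h, if_false]
          exact hμ.maps e he ht
      · intro e he e' he' ht ht' heq
        by_cases h : e = f <;> by_cases h' : e' = f
        · rw [h, h']
        · simp only [h, h', if_true, if_false] at heq
          exact (hμ.avoid e' he' ht' (heq ▸ hfJ)).elim
        · simp only [h, h', if_true, if_false] at heq
          exact (hμ.avoid e he ht (heq ▸ hfJ)).elim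
        · simp only [h, h', if_false] at heq
          exact hμ.inj e he e' he' ht ht' heq
      · intro e he ht hmem
        by_cases h : e = f
        · simp only [h, if_true] at hmem
          rcases Finset.mem_insert.1 (Finset.mem_coe.1 hmem) with h1 | h1
          · exact hgf h1.symm
          · exact Finset.notMem_erase f J h1
        · simp only [h, if_false] at hmem
          rcases Finset.mem_insert.1 (Finset.mem_coe.1 hmem) with h1 | h1
          · exact h (hμ.inj e he f hfF ht hfr h1)
          · exact hμ.avoid e he ht (Finset.mem_of_mem_erase h1)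
    exact this.mono_edges (subset_univ _)
  have hrel : CutExpand (TransGen D.Adj) ((insert g (J.erase f) : Finset E).val.map D.tail)
      (J.val.map D.tail) := by
    have h1 : J.val = f ::ₘ (J.erase f).val := by
      rw [Finset.erase_val, Multiset.cons_erase (Finset.mem_def.1 hfJ)]
    rw [Finset.insert_val_of_notMem hgJ', h1, Multiset.map_cons, Multiset.map_cons,
      ← Multiset.singleton_add, ← Multiset.singleton_add]
    exact cutExpand_single_add (TransGen.single hgadj) _
  have hIH := ih (insert g (J.erase f)) hrel hJ2 hLk2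
  have hnot : ∀ j ∈ ((insert g (J.erase f) : Finset E) : Set E),
      ¬ ReflTransGen D.Adj (D.head f) (D.tail j) := by
    intro j hj hh
    rcases Finset.mem_insert.1 (Finset.mem_coe.1 hj) with rfl | hj
    · exact hac (D.tail f) (TransGen.tail (TransGen.head' hfadj hh) hgadj)
    · exact hmax j (Finset.mem_of_mem_erase hj) (TransGen.head' hfadj hh)
  have hnotJ : ∀ j ∈ J, ¬ ReflTransGen D.Adj (D.head f) (D.tail j) := by
    intro j hj hh
    exact hmax j hj (TransGen.head' hfadj hh)
  obtain ⟨-, ν, hν⟩ := hIH.down (D.head f) hnot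
  set U : Set E := {e | ReflTransGen D.Adj (D.head f) (D.tail e)} with hU
  have hfU : f ∉ U := hnotJ f hfJ
  have hgU : g ∉ U := hnot g (by simp)
  have hgJ2 : g ∈ ((insert g (J.erase f) : Finset E) : Set E) := by simp
  refine ⟨hJB, fun e => if e = f then g else if e ∈ U then e else ν e, ?_, ?_, ?_⟩
  · intro e he ht
    by_cases h : e = f
    · simp only [h, if_true]
      exact ⟨hgB, Or.inr hghead⟩
    · by_cases hU' : e ∈ U
      · simp only [h, hU', if_true, if_false]
        exact ⟨he, Or.inl trivial⟩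
      · simp only [h, hU', if_false]
        obtain ⟨h1, h2⟩ := hν.maps e ⟨he, hU'⟩ ht
        exact ⟨h1.1, h2⟩
  · have key : ∀ e ∈ B, D.tail e ≠ D.root → e ≠ f → e ∉ U → g ≠ ν e := by
      intro e he ht h hU' hh
      exact hν.avoid e ⟨he, hU'⟩ ht (hh ▸ hgJ2)
    intro e he e' he' ht ht' heq
    by_cases h : e = f <;> by_cases h' : e' = f
    · rw [h, h']
    · by_cases hU' : e' ∈ U
      · simp only [h, h', hU', if_true, if_false] at heq
        exact (hgU (heq ▸ hU')).elim
      · simp only [h, h', hU', if_true, if_false] at heq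
        exact (key e' he' ht' h' hU' heq).elim
    · by_cases hU' : e ∈ U
      · simp only [h, h', hU', if_true, if_false] at heq
        exact (hgU (heq ▸ hU')).elim
      · simp only [h, h', hU', if_true, if_false] at heq
        exact (key e he ht h hU' heq.symm).elim
    · by_cases hU1 : e ∈ U <;> by_cases hU2 : e' ∈ U
      · simp only [h, h', hU1, hU2, if_true, if_false] at heq
        exact heq
      · simp only [h, h', hU1, hU2, if_true, if_false] at heq
        exact ((hν.maps e' ⟨he', hU2⟩ ht').1.2 (heq ▸ hU1)).elim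
      · simp only [h, h', hU1, hU2, if_true, if_false] at heq
        exact ((hν.maps e ⟨he, hU1⟩ ht).1.2 (heq ▸ hU2)).elim
      · simp only [h, h', hU1, hU2, if_false] at heq
        exact hν.inj e ⟨he, hU1⟩ e' ⟨he', hU2⟩ ht ht' heq
  · intro e he ht hmem
    by_cases h : e = f
    · simp only [h, if_true] at hmem
      exact hgJ hmem
    · by_cases hU' : e ∈ U
      · simp only [h, hU', if_true, if_false] at hmem
        exact hnotJ e hmem hU'
      · simp only [h, hU', if_false] at hmem
        have h1 := hν.avoid e ⟨he, hU'⟩ ht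
        by_cases h2 : ν e = f
        · rcases (hν.maps e ⟨he, hU'⟩ ht).2 with h3 | h3
          · exact h (h3.symm.trans h2)
          · apply hU'
            change ReflTransGen D.Adj (D.head f) (D.tail e)
            rw [← h3, h2]
        · apply h1
          exact Finset.mem_coe.2 (Finset.mem_insert_of_mem (Finset.mem_erase.2 ⟨h2, hmem⟩))

/-! ### compactness -/

lemma compact {B J : Set E} {w : V} (hJ : J ⊆ B) (hJw : ∀ j ∈ J, D.head j = w)
    (hfin : ∀ J0 : Finset E, (J0 : Set E) ⊆ J → Lk D B (J0 : Set E))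
    (hdeg : ∀ u, u ≠ D.root → TransGen D.Adj u w → {e | e ∈ B ∧ D.head e = u}.Finite) :
    Lk D B J := by
  classical
  have h0 : ∀ s : Finset E, ∃ μ, Mt D B (((s.filter (· ∈ J)) : Finset E) : Set E) μ := by
    intro s
    obtain ⟨-, μ, hμ⟩ := hfin (s.filter (· ∈ J)) (by
      intro e he
      exact (Finset.mem_filter.1 (Finset.mem_coe.1 he)).2)
    exact ⟨μ, hμ⟩
  choose μ hμ using h0
  let Uf : Ultrafilter (Finset E) := Ultrafilter.of Filter.atTop
  have hUf : (Uf : Filter (Finset E)) ≤ Filter.atTop := Ultrafilter.of_le _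
  let F : Set E := {e | e ∈ B ∧ ReflTransGen D.Adj (D.head e) w}
  have h1 : ∀ e ∈ F, D.tail e ≠ D.root → ∃ y, {s | μ s e = y} ∈ Uf := by
    intro e he ht
    have hfinT : (insert e {g | g ∈ B ∧ D.head g = D.tail e}).Finite := by
      refine Set.Finite.insert e (hdeg _ ht ?_)
      exact TransGen.head' ⟨e, rfl, rfl⟩ he.2
    have h2 : (⋃ y ∈ insert e {g | g ∈ B ∧ D.head g = D.tail e}, {s | μ s e = y}) ∈ Uf := by
      refine Filter.mem_of_superset Filter.univ_mem ?_
      intro s _
      obtain ⟨h3, h4⟩ := (hμ s).maps e he.1 ht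
      refine mem_iUnion₂.2 ⟨μ s e, ?_, rfl⟩
      rcases h4 with h4 | h4
      · exact Or.inl h4
      · exact Or.inr ⟨h3, h4⟩
    obtain ⟨y, _, hy⟩ := (Ultrafilter.finite_biUnion_mem_iff hfinT).1 h2
    exact ⟨y, hy⟩
  choose! m hm using h1
  have hLk : Lk D F J := by
    refine ⟨fun j hj => ⟨hJ hj, by rw [hJw j hj]⟩, m, ?_, ?_, ?_⟩
    · intro e he ht
      obtain ⟨s, hs⟩ := Uf.nonempty_of_mem (hm e he ht)
      obtain ⟨h3, h4⟩ := (hμ s).maps e he.1 ht
      have hs' : μ s e = m e := hs
      rw [hs'] at h3 h4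
      refine ⟨⟨h3, ?_⟩, h4⟩
      rcases h4 with h4 | h4
      · rw [h4]; exact he.2
      · rw [h4]
        exact ReflTransGen.head ⟨e, rfl, rfl⟩ he.2
    · intro e he e' he' ht ht' heq
      obtain ⟨s, hs, hs'⟩ := Uf.nonempty_of_mem (Filter.inter_mem (hm e he ht) (hm e' he' ht'))
      have h3 : μ s e = m e := hs
      have h4 : μ s e' = m e' := hs'
      exact (hμ s).inj e he.1 e' he'.1 ht ht' (by rw [h3, h4, heq])
    · intro e he ht hmem
      have h5 : {s : Finset E | ({m e} : Finset E) ≤ s} ∈ (Uf : Filter (Finset E)) :=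
        hUf (Filter.mem_atTop _)
      obtain ⟨s, hs, hs'⟩ := Uf.nonempty_of_mem (Filter.inter_mem (hm e he ht) h5)
      have h3 : μ s e = m e := hs
      refine (hμ s).avoid e he.1 ht ?_
      rw [h3]
      exact Finset.mem_coe.2 (Finset.mem_filter.2 ⟨Finset.singleton_subset_iff.1 hs', hmem⟩)
  exact hLk.mono_edges (fun e he => he.1)

/-! ### paths and predecessor maps -/

lemma walk_vertices {v : V} {l : List E} (h : D.Walk v l) :
    l.map D.head ++ [D.root] = v :: l.map D.tail := by
  induction h with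
  | nil => simp
  | cons e l h ih => simp [ih]

lemma walk_pred {v : V} {l : List E} (h : D.Walk v l) :
    ∀ e ∈ l, D.tail e ≠ D.root → ∃ e' ∈ l, D.head e' = D.tail e := by
  induction h with
  | nil => simp
  | cons e l h ih =>
    intro x hx ht
    rcases List.mem_cons.1 hx with rfl | hx
    · cases h' : l with
      | nil =>
        subst h'
        generalize hv : D.tail x = v at h
        cases h
        exact (ht hv).elim
      | cons e' l' =>
        subst h'
        generalize hv : D.tail x = v at h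
        cases h
        exact ⟨e', by simp, rfl⟩
    · obtain ⟨e', he', h2⟩ := ih x hx ht
      exact ⟨e', List.mem_cons_of_mem _ he', h2⟩

lemma ofG {F J : Set E} {v : V} (h : J ∈ D.Gv F v) : Lk D F J := by
  classical
  obtain ⟨h1, P, hP, hS, hJ⟩ := h
  -- predecessors on the paths
  have hpred : ∀ e, ∀ S ∈ P, e ∈ S → D.tail e ≠ D.root → ∃ e' ∈ S, D.head e' = D.tail e := by
    intro e S hSP he ht
    obtain ⟨l, hl, _, rfl, _⟩ := hS S hSP
    exact walk_pred hl e he ht
  have htails : ∀ S ∈ P, ∀ e ∈ S, ∀ e' ∈ S, D.tail e = D.tail e' → e = e' := by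
    intro S hSP e he e' he' heq
    obtain ⟨l, hl, hnd, rfl, _⟩ := hS S hSP
    rw [walk_vertices hl] at hnd
    exact List.inj_on_of_nodup_map (List.nodup_cons.1 hnd).2 he he' heq
  have hend : ∀ S ∈ P, ∀ e ∈ S, D.tail e ≠ v := by
    intro S hSP e he heq
    obtain ⟨l, hl, hnd, rfl, _⟩ := hS S hSP
    rw [walk_vertices hl] at hnd
    exact (List.nodup_cons.1 hnd).1 (List.mem_map.2 ⟨e, he, heq⟩)
  have hex : ∀ e, e ∈ ⋃₀ P → D.tail e ≠ D.root →
      ∃ e', ∃ S ∈ P, e ∈ S ∧ e' ∈ S ∧ D.head e' = D.tail e := by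
    rintro e ⟨S, hSP, he⟩ ht
    obtain ⟨e', he', h2⟩ := hpred e S hSP he ht
    exact ⟨e', S, hSP, he, he', h2⟩
  choose! p hp using hex
  have hF : ∀ e ∈ ⋃₀ P, e ∈ F := by
    rintro e ⟨S, hSP, he⟩
    obtain ⟨l, _, _, _, h5⟩ := hS S hSP
    exact h5 he
  refine ⟨fun j hj => (h1 hj).1, fun e => if e ∈ ⋃₀ P then p e else e, ?_, ?_, ?_⟩
  · intro e he ht
    by_cases h : e ∈ ⋃₀ P
    · simp only [h, if_true]
      obtain ⟨S, hSP, he1, he2, he3⟩ := hp e h ht
      exact ⟨hF _ ⟨S, hSP, he2⟩, Or.inr he3⟩
    · simp only [h, if_false]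
      exact ⟨he, Or.inl trivial⟩
  · intro e he e' he' ht ht' heq
    by_cases h : e ∈ ⋃₀ P <;> by_cases h' : e' ∈ ⋃₀ P
    · simp only [h, h', if_true] at heq
      obtain ⟨S, hSP, he1, he2, he3⟩ := hp e h ht
      obtain ⟨S', hSP', he1', he2', he3'⟩ := hp e' h' ht'
      have hSS : S = S' := by
        by_contra hne
        exact Set.disjoint_left.1 (hP hSP hSP' hne) he2 (heq ▸ he2')
      subst hSS
      exact htails S hSP e he1 e' he1' (by rw [← he3, ← he3', heq])
    · simp only [h, h', if_true, if_false] at heq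
      obtain ⟨S, hSP, he1, he2, he3⟩ := hp e h ht
      exact (h' (heq ▸ ⟨S, hSP, he2⟩)).elim
    · simp only [h, h', if_true, if_false] at heq
      obtain ⟨S, hSP, he1, he2, he3⟩ := hp e' h' ht'
      exact (h (heq ▸ ⟨S, hSP, he2⟩)).elim
    · simp only [h, h', if_false] at heq
      exact heq
  · intro e he ht hmem
    by_cases h : e ∈ ⋃₀ P
    · simp only [h, if_true] at hmem
      obtain ⟨S, hSP, he1, he2, he3⟩ := hp e h ht
      exact hend S hSP e he1 (by rw [← he3]; exact (h1 hmem).2)
    · simp only [h, if_false] at hmem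
      exact h (hJ hmem)

lemma walk_reach {v : V} {l : List E} (h : D.Walk v l) :
    ∀ x ∈ l.map D.tail, TransGen D.Adj x v := by
  induction h with
  | nil => simp
  | cons e l h ih =>
    intro x hx
    rw [List.map_cons, List.mem_cons] at hx
    have h1 : D.Adj (D.tail e) (D.head e) := ⟨e, rfl, rfl⟩
    rcases hx with rfl | hx
    · exact TransGen.single h1
    · exact (ih x hx).tail h1

lemma walk_nodup (hac : D.Acyclic) {v : V} {l : List E} (h : D.Walk v l) :
    (l.map D.head ++ [D.root]).Nodup := by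
  induction h with
  | nil => simp
  | cons e l h ih =>
    rw [walk_vertices (RDigraph.Walk.cons e l h), List.map_cons]
    rw [walk_vertices h] at ih
    refine List.nodup_cons.2 ⟨fun hh => ?_, ih⟩
    have h2 := walk_reach (RDigraph.Walk.cons e l h) (D.head e) (by rw [List.map_cons]; exact hh)
    exact hac _ h2

/-- the backward trace of an edge -/
def Stp (D : RDigraph V E) (μ : E → E) (a b : E) : Prop := D.tail a ≠ D.root ∧ μ a = b

lemma trace (hwf : WellFounded D.Adj) {F J : Set E} {μ : E → E} (hμ : Mt D F J μ) (v : V) :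
    ∀ e ∈ F, D.tail e = v →
      (e ∈ J ∨ ∃ e' ∈ F, D.tail e' ≠ D.root ∧ μ e' = e ∧ e' ≠ e) →
      ∃ l, D.Walk (D.head e) (e :: l) ∧ (∀ x, x ∈ e :: l ↔ ReflTransGen (Stp D μ) e x) ∧
        ∀ x ∈ e :: l, x ∈ F := by
  induction v using hwf.induction with
  | _ v ih =>
  intro e he hv hused
  by_cases ht : D.tail e = D.root
  · refine ⟨[], ?_, ?_, ?_⟩
    · refine RDigraph.Walk.cons e [] ?_
      rw [ht]
      exact RDigraph.Walk.nil
    · intro x
      rw [List.mem_singleton]
      constructor
      · rintro rfl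
        exact ReflTransGen.refl
      · intro h
        rcases ReflTransGen.cases_head h with h | ⟨c, hc, _⟩
        · exact h.symm
        · exact (hc.1 ht).elim
    · intro x hx
      rw [List.mem_singleton] at hx
      rw [hx]; exact he
  · obtain ⟨h1, h2⟩ := hμ.maps e he ht
    have hne : μ e ≠ e := by
      intro hh
      rcases hused with hJ | ⟨e', he', ht', h3, h4⟩
      · exact hμ.avoid e he ht (by rw [hh]; exact hJ)
      · exact h4 (hμ.inj e' he' e he ht' ht (by rw [h3, hh]))
    have h3 := h2.resolve_left hne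
    obtain ⟨l, hl, hl2, hl3⟩ := ih (D.tail (μ e)) (by rw [← hv]; exact ⟨μ e, rfl, h3⟩) (μ e) h1 rfl
      (Or.inr ⟨e, he, ht, rfl, hne.symm⟩)
    refine ⟨μ e :: l, ?_, ?_, ?_⟩
    · refine RDigraph.Walk.cons e _ ?_
      rw [← h3]
      exact hl
    · intro x
      rw [List.mem_cons, hl2]
      constructor
      · rintro (rfl | h)
        · exact ReflTransGen.refl
        · exact ReflTransGen.head ⟨ht, rfl⟩ h
      · intro h
        rcases ReflTransGen.cases_head h with h | ⟨c, hc, hc'⟩
        · exact Or.inl h.symm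
        · have := hc.2
          subst this
          exact Or.inr hc'
    · intro x hx
      rcases List.mem_cons.1 hx with rfl | hx
      · exact he
      · exact hl3 x hx

lemma toG (hac : D.Acyclic) (hwf : WellFounded D.Adj) {F J : Set E} {v : V} (h : Lk D F J)
    (hJv : ∀ j ∈ J, D.head j = v) : J ∈ D.Gv F v := by
  obtain ⟨hJF, μ, hμ⟩ := h
  refine ⟨fun j hj => ⟨hJF hj, hJv j hj⟩, {S | ∃ j ∈ J, S = {x | ReflTransGen (Stp D μ) j x}},
    ?_, ?_, ?_⟩
  · rintro _ ⟨j, hj, rfl⟩ _ ⟨j', hj', rfl⟩ hne
    refine Set.disjoint_left.2 ?_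
    intro x (hx : ReflTransGen (Stp D μ) j x) (hx' : ReflTransGen (Stp D μ) j' x)
    -- everything on a trace lies in `F`
    have htr : ∀ j ∈ J, ∀ x, ReflTransGen (Stp D μ) j x → x ∈ F := by
      intro j hj x hx
      obtain ⟨l, _, hl2, hl3⟩ := trace hwf hμ (D.tail j) j (hJF hj) rfl (Or.inl hj)
      exact hl3 x ((hl2 x).2 hx)
    -- the relation restricted to `F`
    have key : ∀ j ∈ J, ∀ x, ReflTransGen (Stp D μ) j x →
        ReflTransGen (fun a b => a ∈ F ∧ Stp D μ a b) j x := by
      intro j hj x hx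
      induction hx with
      | refl => exact ReflTransGen.refl
      | tail h1 h2 ih => exact ReflTransGen.tail ih ⟨htr j hj _ h1, h2⟩
    have hswap : Relator.RightUnique (Function.swap (fun a b => a ∈ F ∧ Stp D μ a b)) := by
      rintro a y y' ⟨h1, h2, h3⟩ ⟨h1', h2', h3'⟩
      exact hμ.inj y h1 y' h1' h2 h2' (h3.trans h3'.symm)
    have h1 := reflTransGen_swap.2 (key j hj x hx)
    have h2 := reflTransGen_swap.2 (key j' hj' x hx')
    have hfin : ∀ a b, b ∈ J → ReflTransGen (fun a b => a ∈ F ∧ Stp D μ a b) a b → a = b := by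
      intro a b hb hab
      rcases ReflTransGen.cases_tail hab with h | ⟨c, _, hc1, hc2, hc3⟩
      · exact h.symm
      · exact (hμ.avoid c hc1 hc2 (hc3 ▸ hb)).elim
    have hjj : j = j' := by
      rcases ReflTransGen.total_of_right_unique hswap h1 h2 with h | h
      · exact (hfin _ _ hj (reflTransGen_swap.1 h)).symm
      · exact hfin _ _ hj' (reflTransGen_swap.1 h)
    subst hjj
    exact hne rfl
  · rintro _ ⟨j, hj, rfl⟩
    obtain ⟨l, hl, hl2, hl3⟩ := trace hwf hμ (D.tail j) j (hJF hj) rfl (Or.inl hj)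
    refine ⟨j :: l, ?_, ?_, ?_, ?_⟩
    · rw [← hJv j hj]
      exact hl
    · exact walk_nodup hac hl
    · ext x
      exact (hl2 x).symm
    · intro x hx
      exact hl3 x ((hl2 x).2 hx)
  · intro j hj
    exact ⟨_, ⟨j, hj, rfl⟩, ReflTransGen.refl⟩


/-! ### maximal elements -/

lemma maxData (hac : D.Acyclic) (hwf : WellFounded D.Adj) {B : Set E}
    (hB : Maximal (· ∈ D.GG univ) B) : MaxData D B := by
  classical
  obtain ⟨⟨I, hI, hBI⟩, hmax⟩ := hB
  have hIv : ∀ v, v ≠ D.root → {e | e ∈ B ∧ D.head e = v} = I v := by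
    intro v hv
    ext e
    constructor
    · rintro ⟨he, hev⟩
      rw [hBI] at he
      obtain ⟨v', hv', he'⟩ := mem_iUnion₂.1 he
      have h1 : D.head e = v' := ((hI v' hv').1 he').2
      rw [← hev, h1]
      exact he'
    · intro he
      refine ⟨?_, ((hI v hv).1 he).2⟩
      rw [hBI]
      exact mem_iUnion₂.2 ⟨v, hv, he⟩
  refine ⟨fun v hv => ?_, fun k hk hL => ?_⟩
  · rw [hIv v hv]
    exact ofG (hI v hv)
  · have h1 := toG hac hwf hL (v := D.head k) (by
      rintro j (rfl | hj)
      · rfl
      · exact hj.2)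
    have h2 : insert k B ∈ D.GG univ := by
      refine ⟨fun v => if v = D.head k then insert k {e | e ∈ B ∧ D.head e = D.head k} else I v,
        ?_, ?_⟩
      · intro v hv
        by_cases h : v = D.head k
        · subst h
          simp only [if_true]
          exact h1
        · simp only [h, if_false]
          exact hI v hv
      · ext e
        constructor
        · intro he
          refine mem_iUnion₂.2 ⟨D.head e, D.root_in e, ?_⟩
          by_cases h : D.head e = D.head k
          · simp only [h, if_true]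
            rcases he with rfl | he
            · exact Or.inl rfl
            · exact Or.inr ⟨he, h⟩
          · simp only [h, if_false]
            rcases he with rfl | he
            · exact (h rfl).elim
            · rw [← hIv _ (D.root_in e)]
              exact ⟨he, rfl⟩
        · intro he
          obtain ⟨v, hv, he⟩ := mem_iUnion₂.1 he
          by_cases h : v = D.head k
          · simp only [h, if_true] at he
            rcases he with rfl | he
            · exact Or.inl rfl
            · exact Or.inr he.1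
          · simp only [h, if_false] at he
            refine Or.inr ?_
            rw [hBI]
            exact mem_iUnion₂.2 ⟨v, hv, he⟩
    exact hk (hmax h2 (subset_insert k B) (mem_insert k B))

/-- linkages of edges entering `v` use only edges below `v` -/
lemma Lk.below {F J : Set E} {v : V} (h : Lk D F J) (hJ : ∀ j ∈ J, D.head j = v) :
    Lk D {e | e ∈ F ∧ ReflTransGen D.Adj (D.head e) v} J := by
  obtain ⟨h1, μ, hμ⟩ := h
  refine ⟨fun j hj => ⟨h1 hj, by rw [hJ j hj]⟩, μ, ?_, ?_, ?_⟩
  · intro e he ht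
    obtain ⟨h2, h3⟩ := hμ.maps e he.1 ht
    refine ⟨⟨h2, ?_⟩, h3⟩
    rcases h3 with h3 | h3
    · rw [h3]; exact he.2
    · rw [h3]
      exact ReflTransGen.head ⟨e, rfl, rfl⟩ he.2
  · intro e he e' he' ht ht' h
    exact hμ.inj e he.1 e' he'.1 ht ht' h
  · intro e he ht
    exact hμ.avoid e he.1 ht

lemma infConn {B : Set E} {v : V} (hv : {e | e ∈ B ∧ D.head e = v} ∈ D.Gv univ v)
    (hinf : {e | e ∈ B ∧ D.head e = v}.Infinite) : D.InfConn v := by
  obtain ⟨_, P, hP, hS, hJ⟩ := hv
  refine ⟨P, fun hfin => hinf ?_, hP, hS⟩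
  refine (Set.Finite.sUnion hfin ?_).subset hJ
  intro S hSP
  obtain ⟨l, _, _, rfl, _⟩ := hS S hSP
  exact List.finite_toSet l

lemma main (hac : D.Acyclic) (hwf : WellFounded D.Adj) {B : Set E} (hB : MaxData D B) :
    (∀ v, v ≠ D.root → ∀ J : Set E, J ⊆ {e | e ∈ B ∧ D.head e = v} → J.Finite →
      J ∈ D.Gv B v) ∧
    (∀ v, v ≠ D.root → (¬ D.InfConn v ∨ ∀ u, u ≠ D.root → TransGen D.Adj u v → ¬ D.InfConn u) →
      {e | e ∈ B ∧ D.head e = v} ∈ D.Gv B v) ∧
    (∀ X : Set V, (∀ v, {x | x ∈ X ∧ ReflTransGen D.Adj x v}.Finite) → ∀ v, v ≠ D.root →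
      {e | e ∈ B ∧ D.head e = v} ∈ D.Gv {e | e ∈ B ∨ D.head e ∉ X} v) := by
  classical
  have hfinite : ∀ v, v ≠ D.root → ∀ J : Set E, J ⊆ {e | e ∈ B ∧ D.head e = v} → J.Finite →
      Lk D B J := by
    intro v hv J hJ hfin
    have h1 := (hB.lk v hv).mono_set hJ
    have h2 := finJ hac hwf hB hfin.toFinset (by
      rw [hfin.coe_toFinset]
      exact fun e he => (hJ he).1) (by
      rw [hfin.coe_toFinset]
      exact h1)
    rwa [hfin.coe_toFinset] at h2
  have hGv : ∀ v, v ≠ D.root → {e | e ∈ B ∧ D.head e = v} ∈ D.Gv univ v := by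
    intro v hv
    exact toG hac hwf (hB.lk v hv) (fun j hj => hj.2)
  have hfc : ∀ v, v ≠ D.root → ¬ D.InfConn v → {e | e ∈ B ∧ D.head e = v}.Finite := by
    intro v hv h
    by_contra hinf
    exact h (infConn (hGv v hv) hinf)
  refine ⟨?_, ?_, ?_⟩
  · intro v hv J hJ hfin
    exact toG hac hwf (hfinite v hv J hJ hfin) (fun j hj => (hJ hj).2)
  · rintro v hv (h | h)
    · exact toG hac hwf (hfinite v hv _ subset_rfl (hfc v hv h)) (fun j hj => hj.2)
    · refine toG hac hwf (compact (fun e he => he.1) (fun j hj => hj.2) ?_ ?_)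
        (fun j hj => hj.2)
      · intro J0 hJ0
        exact hfinite v hv _ hJ0 (Finset.finite_toSet J0)
      · intro u hu huv
        exact hfc u hu (h u hu huv)
  · intro X hX v hv
    have h1 := finX hac hB (hX v).toFinset _ (hB.lk v hv) (fun j hj _ => hj.1)
    refine toG hac hwf ((h1.below (fun j hj => hj.2)).mono_edges ?_) (fun j hj => hj.2)
    rintro e ⟨he | he, he'⟩
    · exact Or.inl he
    · refine Or.inr fun hX' => he ?_
      rw [Set.Finite.mem_toFinset]
      exact ⟨hX', he'⟩

lemma flame_of {B : Set E}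
    (h : ∀ v, v ≠ D.root → {e | e ∈ B ∧ D.head e = v} ∈ D.Gv B v) : D.Flame B := by
  refine ⟨fun v => {e | e ∈ B ∧ D.head e = v}, h, ?_⟩
  ext e
  constructor
  · intro he
    exact mem_iUnion₂.2 ⟨D.head e, D.root_in e, he, rfl⟩
  · intro he
    obtain ⟨v, _, he⟩ := mem_iUnion₂.1 he
    exact he.1

/-- Let `D` be an acyclic rooted digraph without backward-infinite paths and `B` a maximal element
of `𝒢(D)`.
(1) For every vertex `v ≠ r`, every finite set of edges of `B` entering `v` is covered by pairwise
edge-disjoint paths from `r` to `v` inside `B`.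
(2) The set of all edges of `B` entering `v ≠ r` is covered by pairwise edge-disjoint paths from
`r` to `v` inside `B` if `v` has finite connectivity, or if all vertices `u ≠ r` from which `v` can
be reached, `u ≠ v`, have finite connectivity.
(3) If no vertex of infinite connectivity can be reached from another vertex of infinite
connectivity (different from `r`), then `B` is a flame.
(4) If `X` is a set of vertices such that every vertex can be reached from only finitely many
elements of `X` (for example a finite set), then for every `v ≠ r` the edges of `B` entering `v`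
are covered by pairwise edge-disjoint paths from `r` to `v` whose edges entering vertices of `X`
lie in `B`.
(5) So `B` is a flame if every vertex can be reached from only finitely many vertices `x` that have
an entering edge outside `B`. -/
theorem result {V E : Type*} (D : RDigraph V E) (hac : D.Acyclic) (hb : D.NoBackInf) (B : Set E)
    (hB : Maximal (· ∈ D.GG univ) B) :
    (∀ v, v ≠ D.root → ∀ J : Set E, J ⊆ {e | e ∈ B ∧ D.head e = v} → J.Finite →
      J ∈ D.Gv B v) ∧
    (∀ v, v ≠ D.root → (¬ D.InfConn v ∨ ∀ u, u ≠ D.root → TransGen D.Adj u v → ¬ D.InfConn u) →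
      {e | e ∈ B ∧ D.head e = v} ∈ D.Gv B v) ∧
    ((∀ u v, u ≠ D.root → TransGen D.Adj u v → ¬ (D.InfConn u ∧ D.InfConn v)) → D.Flame B) ∧
    (∀ X : Set V, (∀ v, {x | x ∈ X ∧ ReflTransGen D.Adj x v}.Finite) → ∀ v, v ≠ D.root →
      {e | e ∈ B ∧ D.head e = v} ∈ D.Gv {e | e ∈ B ∨ D.head e ∉ X} v) ∧
    ((∀ v, {x | (∃ e, e ∉ B ∧ D.head e = x) ∧ ReflTransGen D.Adj x v}.Finite) → D.Flame B) := by
  have hwf := adj_wf D hac hb
  obtain ⟨h1, h2, h4⟩ := main hac hwf (maxData hac hwf hB)
  refine ⟨h1, h2, fun h => ?_, h4, fun h => ?_⟩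
  · refine flame_of fun v hv => h2 v hv ?_
    by_cases hi : D.InfConn v
    · exact Or.inr fun u hu huv hu' => h u v hu huv ⟨hu', hi⟩
    · exact Or.inl hi
  · refine flame_of fun v hv => ?_
    have h5 := h4 {x | ∃ e, e ∉ B ∧ D.head e = x} h v hv
    have h6 : {e | e ∈ B ∨ D.head e ∉ {x | ∃ e, e ∉ B ∧ D.head e = x}} = B := by
      ext e
      constructor
      · rintro (he | he)
        · exact he
        · by_contra hB'
          exact he ⟨e, hB', rfl⟩
      · exact fun he => Or.inl he
    rwa [h6] at h5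


end Pool.Agent.Results.MP_b6d2fe_co.FiniteConnectivity
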